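import Mathlib

namespace Pool.Agent.Results.MP_da5e02_co.Counter

open SimpleGraph

/-- Detour distance: the largest length of a `u,v`-path. -/
noncomputable def detour {V : Type} (G : SimpleGraph V) (u v : V) : ℕ :=
  sSup {k | ∃ p : G.Walk u v, p.IsPath ∧ p.length = k}

def DetourPos {V : Type} (G : SimpleGraph V) (S : Finset V) : Prop :=
  ∀ u ∈ S, ∀ v ∈ S, u ≠ v → ∀ p : G.Walk u v, p.IsPath ∧ p.length = detour G u v →
    ∀ w ∈ S, w ≠ u → w ≠ v → w ∉ p.support

noncomputable def dp {V : Type} (G : SimpleGraph V) : ℕ :=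
  sSup {k | ∃ S : Finset V, DetourPos G S ∧ S.card = k}

noncomputable def detourDiam {V : Type} (G : SimpleGraph V) : ℕ :=
  sSup (Set.range fun x : V × V => detour G x.1 x.2)

def nb (a : Fin 11) : List (Fin 11) := ![[1, 3, 4], [0, 2], [1, 6, 9], [0, 7, 10], [0, 5], [4, 7, 8], [2, 8], [3, 5, 9], [5, 6], [2, 7], [3]] a

def G : SimpleGraph (Fin 11) where
  Adj a b := b ∈ nb a
  symm := ⟨by decide⟩
  loopless := ⟨by decide⟩

instance : DecidableRel G.Adj := fun a b => inferInstanceAs (Decidable (b ∈ nb a))

def chk (P : Fin 11 → List (Fin 11) → Bool) : ℕ → Fin 11 → List (Fin 11) → Bool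
  | 0, _, _ => false
  | f + 1, a, acc => P a (a :: acc) && (nb a).all fun b => acc.contains b || chk P f b (a :: acc)

lemma chk_sound (P : Fin 11 → List (Fin 11) → Bool) {a v : Fin 11} (p : G.Walk a v) :
    ∀ f acc, chk P f a acc = true → p.IsPath → (∀ x ∈ p.support, x ∉ acc) →
      P v (p.support.reverse ++ acc) = true := by
  induction p with
  | nil =>
    intro f acc h _ _
    cases f with
    | zero => simp [chk] at h
    | succ f => simp only [chk, Bool.and_eq_true] at h; simpa using h.1
  | @cons a b v hab q ih =>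
    intro f acc h hp hx
    cases f with
    | zero => simp [chk] at h
    | succ f =>
      simp only [chk, Bool.and_eq_true, List.all_eq_true, Bool.or_eq_true,
        List.contains_iff_mem] at h
      rw [Walk.cons_isPath_iff] at hp
      rcases h.2 b hab with h' | h'
      · exact absurd h' (hx b (by simp))
      · have := ih f (a :: acc) h' hp.1 (fun x hxq hm => by
          rcases List.mem_cons.1 hm with rfl | hm
          · exact hp.2 hxq
          · exact hx x (by simp [hxq]) hm)
        simpa using this

lemma le_detour {u v : Fin 11} (q : G.Walk u v) (hq : q.IsPath) : q.length ≤ detour G u v :=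
  le_csSup ⟨11, by rintro k ⟨p, hp, rfl⟩; simpa using hp.length_lt.le⟩ ⟨q, hq, rfl⟩

lemma key (u v w : Fin 11) (L : ℕ) (q : G.Walk u v) (hq : q.support.Nodup) (hL : q.length = L)
    (h : chk (fun a l => !(a == v && l.contains w) || decide (l.length ≤ L)) 12 u [] = true)
    (p : G.Walk u v) (hp : p.IsPath ∧ p.length = detour G u v) : w ∉ p.support := by
  intro hw
  have h1 := chk_sound _ p 12 [] h hp.1 (by simp)
  have h2 := le_detour q ((Walk.isPath_def q).2 hq)
  simp [hw] at h1
  omega

lemma pos : DetourPos G {4, 9, 10} := by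
  intro u hu v hv huv p hp w hw h1 h2
  simp only [Finset.mem_insert, Finset.mem_singleton] at hu hv hw
  rcases hu with rfl | rfl | rfl <;> rcases hv with rfl | rfl | rfl <;>
    rcases hw with rfl | rfl | rfl <;> try contradiction
  · exact key 4 9 10 9 (.cons (show G.Adj 4 5 by decide) (.cons (show G.Adj 5 8 by decide) (.cons (show G.Adj 8 6 by decide) (.cons (show G.Adj 6 2 by decide) (.cons (show G.Adj 2 1 by decide) (.cons (show G.Adj 1 0 by decide) (.cons (show G.Adj 0 3 by decide) (.cons (show G.Adj 3 7 by decide) (.cons (show G.Adj 7 9 by decide) .nil))))))))) (by decide) rfl (by decide +kernel) p hp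
  · exact key 4 10 9 9 (.cons (show G.Adj 4 0 by decide) (.cons (show G.Adj 0 1 by decide) (.cons (show G.Adj 1 2 by decide) (.cons (show G.Adj 2 6 by decide) (.cons (show G.Adj 6 8 by decide) (.cons (show G.Adj 8 5 by decide) (.cons (show G.Adj 5 7 by decide) (.cons (show G.Adj 7 3 by decide) (.cons (show G.Adj 3 10 by decide) .nil))))))))) (by decide) rfl (by decide +kernel) p hp
  · exact key 9 4 10 9 (.cons (show G.Adj 9 7 by decide) (.cons (show G.Adj 7 3 by decide) (.cons (show G.Adj 3 0 by decide) (.cons (show G.Adj 0 1 by decide) (.cons (show G.Adj 1 2 by decide) (.cons (show G.Adj 2 6 by decide) (.cons (show G.Adj 6 8 by decide) (.cons (show G.Adj 8 5 by decide) (.cons (show G.Adj 5 4 by decide) .nil))))))))) (by decide) rfl (by decide +kernel) p hp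
  · exact key 9 10 4 9 (.cons (show G.Adj 9 7 by decide) (.cons (show G.Adj 7 5 by decide) (.cons (show G.Adj 5 8 by decide) (.cons (show G.Adj 8 6 by decide) (.cons (show G.Adj 6 2 by decide) (.cons (show G.Adj 2 1 by decide) (.cons (show G.Adj 1 0 by decide) (.cons (show G.Adj 0 3 by decide) (.cons (show G.Adj 3 10 by decide) .nil))))))))) (by decide) rfl (by decide +kernel) p hp
  · exact key 10 4 9 9 (.cons (show G.Adj 10 3 by decide) (.cons (show G.Adj 3 7 by decide) (.cons (show G.Adj 7 5 by decide) (.cons (show G.Adj 5 8 by decide) (.cons (show G.Adj 8 6 by decide) (.cons (show G.Adj 6 2 by decide) (.cons (show G.Adj 2 1 by decide) (.cons (show G.Adj 1 0 by decide) (.cons (show G.Adj 0 4 by decide) .nil))))))))) (by decide) rfl (by decide +kernel) p hp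
  · exact key 10 9 4 9 (.cons (show G.Adj 10 3 by decide) (.cons (show G.Adj 3 0 by decide) (.cons (show G.Adj 0 1 by decide) (.cons (show G.Adj 1 2 by decide) (.cons (show G.Adj 2 6 by decide) (.cons (show G.Adj 6 8 by decide) (.cons (show G.Adj 8 5 by decide) (.cons (show G.Adj 5 7 by decide) (.cons (show G.Adj 7 9 by decide) .nil))))))))) (by decide) rfl (by decide +kernel) p hp

theorem result : ¬ ∀ (V : Type) [Fintype V] (Γ : SimpleGraph V), Γ.Connected →
    (dp Γ : ℤ) ≤ (Fintype.card V : ℤ) - detourDiam Γ + 1 := by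
  intro h
  let q : G.Walk 1 10 := (.cons (show G.Adj 1 0 by decide) (.cons (show G.Adj 0 4 by decide) (.cons (show G.Adj 4 5 by decide) (.cons (show G.Adj 5 8 by decide) (.cons (show G.Adj 8 6 by decide) (.cons (show G.Adj 6 2 by decide) (.cons (show G.Adj 2 9 by decide) (.cons (show G.Adj 9 7 by decide) (.cons (show G.Adj 7 3 by decide) (.cons (show G.Adj 3 10 by decide) .nil))))))))))
  have hc : G.Connected := by
    have : ∀ x : Fin 11, x ∈ q.support := by decide
    exact ⟨fun a b => (q.takeUntil a (this a)).reachable.symm.trans (q.takeUntil b (this b)).reachable⟩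
  have h0 := h (Fin 11) G hc
  have h1 : 3 ≤ dp G := le_csSup ⟨11, by
    rintro k ⟨S, -, rfl⟩; simpa using Finset.card_le_univ S⟩ ⟨_, pos, by decide⟩
  have h2 : 10 ≤ detourDiam G :=
    le_trans (le_detour q ((Walk.isPath_def q).2 (by decide)))
      (le_csSup (Set.finite_range _).bddAbove ⟨(1, 10), rfl⟩)
  simp at h0
  omega

end Pool.Agent.Results.MP_da5e02_co.Counter
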